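import Mathlib
import Pool.Agent.N943.RC.Asm
import Pool.Agent.N943.RC.All

/-!
# `1/n` is a weak threshold for a reconstructible set of linear size in every dimension
-/

set_option autoImplicit false

namespace Pool.Agent.Results.MP_78cba5_pr.WeakThreshold

open scoped Classical

/-- `U` is reconstructible from the distances of the pairs of `G`: every placement `x` of the `n`
labelled points in `ℝ^d` with the revealed distances has the right distances inside `U`. -/
def Reconstructible {n d : ℕ} (v : Fin n → EuclideanSpace ℝ (Fin d)) (G : SimpleGraph (Fin n))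
    (U : Finset (Fin n)) : Prop :=
  ∀ x : Fin n → EuclideanSpace ℝ (Fin d),
    (∀ a b, G.Adj a b → dist (x a) (x b) = dist (v a) (v b)) →
    ∀ a ∈ U, ∀ b ∈ U, dist (x a) (x b) = dist (v a) (v b)

/-- The probability that the binomial random graph `G(n,p)` has the property `A`. -/
noncomputable def prob (n : ℕ) (p : ℝ) (A : SimpleGraph (Fin n) → Prop) : ℝ :=
  ∑ G : SimpleGraph (Fin n),
    if A G then p ^ G.edgeSet.ncard * (1 - p) ^ (n.choose 2 - G.edgeSet.ncard) else 0

/-- For every dimension `d ≥ 1`, `1/n` is a weak threshold for the existence of a reconstructible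
set of linear size, for arbitrary point sets: for `p ≤ 1/(2n)` with high probability all
reconstructible sets have size `o(n)`; and for every `δ < 1` there is a constant `C` such that for
`p ≥ C/n` with high probability there is a reconstructible set of size at least `δ n`. -/
theorem result (d : ℕ) (hd : 1 ≤ d) :
    (∀ ε : ℝ, 0 < ε → ∀ η : ℝ, 0 < η → ∃ N : ℕ, ∀ n ≥ N, ∀ p : ℝ, 0 ≤ p → p ≤ 1 / (2 * n) →
      ∀ v : Fin n → EuclideanSpace ℝ (Fin d),
        1 - η ≤ prob n p (fun G => ∀ U : Finset (Fin n), Reconstructible v G U →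
          (U.card : ℝ) ≤ ε * n)) ∧
    (∀ δ : ℝ, δ < 1 → ∃ C : ℝ, 0 < C ∧ ∀ η : ℝ, 0 < η → ∃ N : ℕ, ∀ n ≥ N, ∀ p : ℝ,
      C / n ≤ p → p ≤ 1 → ∀ v : Fin n → EuclideanSpace ℝ (Fin d),
        1 - η ≤ prob n p (fun G => ∃ U : Finset (Fin n), Reconstructible v G U ∧
          δ * n ≤ (U.card : ℝ))) :=
  N943.RC.target d hd

end Pool.Agent.Results.MP_78cba5_pr.WeakThreshold
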